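import Pool.Agent.Q160.SG.Stm

/-!
# Job LOWER of project SG: the explicit colouring
-/

namespace Pool.Agent.Q31.SG.LOWER

open Finset Pool.Agent.Q160.SG

variable {α : Type} [LinearOrder α]

theorem dropMax_eq (K : Finset α) (h : K.Nonempty) : dropMax K = K.erase (K.max' h) := by
  ext x
  unfold dropMax
  rw [mem_filter, mem_erase]
  constructor
  · rintro ⟨hx, y, hy, hxy⟩
    exact ⟨ne_of_lt (lt_of_lt_of_le hxy (K.le_max' y hy)), hx⟩
  · rintro ⟨hx, hk⟩
    exact ⟨hk, K.max' h, K.max'_mem h, lt_of_le_of_ne (K.le_max' x hk) hx⟩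

theorem dropMin_eq (K : Finset α) (h : K.Nonempty) : dropMin K = K.erase (K.min' h) := by
  ext x
  unfold dropMin
  rw [mem_filter, mem_erase]
  constructor
  · rintro ⟨hx, y, hy, hxy⟩
    exact ⟨ne_of_gt (lt_of_le_of_lt (K.min'_le y hy) hxy), hx⟩
  · rintro ⟨hx, hk⟩
    exact ⟨hk, K.min' h, K.min'_mem h, lt_of_le_of_ne (K.min'_le x hk) (Ne.symm hx)⟩

/-- number of left elements -/
def lf (n : ℕ) (S : Finset (Fin n)) : ℕ := (S.filter (fun x => x.val < n / 2)).card

/-- the colouring -/
def col (n : ℕ) (S : Finset (Fin n)) : Bool := decide (lf n S % 2 = 1)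

theorem lf_erase_left (n : ℕ) (S : Finset (Fin n)) (x : Fin n) (hx : x ∈ S) (h : x.val < n / 2) :
    lf n (S.erase x) + 1 = lf n S := by
  unfold lf
  rw [filter_erase]
  exact card_erase_add_one (mem_filter.2 ⟨hx, h⟩)

theorem lf_erase_right (n : ℕ) (S : Finset (Fin n)) (x : Fin n) (h : ¬ x.val < n / 2) :
    lf n (S.erase x) = lf n S := by
  unfold lf
  rw [filter_erase, erase_eq_of_notMem]
  intro hm
  exact h (mem_filter.1 hm).2

theorem key (n : ℕ) (K : Finset (Fin n)) (h : K.Nonempty) :
    col n (dropMax K) = col n (dropMin K) ↔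
      (∀ x ∈ K, x.val < n / 2) ∨ (∀ x ∈ K, ¬ x.val < n / 2) := by
  rw [dropMax_eq K h, dropMin_eq K h]
  have hM := K.max'_mem h
  have hm := K.min'_mem h
  have hle : (K.min' h).val ≤ (K.max' h).val := K.min'_le _ hM
  unfold col
  constructor
  · intro he
    by_contra hc
    push Not at hc
    obtain ⟨⟨r, hr, hr'⟩, l, hl, hl'⟩ := hc
    have h1 : ¬ (K.max' h).val < n / 2 := by
      have : r.val ≤ (K.max' h).val := K.le_max' r hr
      omega
    have h2 : (K.min' h).val < n / 2 := by
      have : (K.min' h).val ≤ l.val := K.min'_le l hl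
      omega
    have e1 := lf_erase_right n K _ h1
    have e2 := lf_erase_left n K _ hm h2
    rw [e1, ← e2, decide_eq_decide] at he
    omega
  · rintro (hL | hR)
    · have e1 := lf_erase_left n K _ hM (hL _ hM)
      have e2 := lf_erase_left n K _ hm (hL _ hm)
      have : lf n (K.erase (K.max' h)) = lf n (K.erase (K.min' h)) := by omega
      rw [this]
    · rw [lf_erase_right n K _ (hR _ hM), lf_erase_right n K _ (hR _ hm)]

theorem t_LOWER : J_LOWER := by
  intro n k hk
  refine ⟨col n, ?_⟩
  set L : Finset (Fin n) := univ.filter (fun x => x.val < n / 2) with hL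
  set R : Finset (Fin n) := univ.filter (fun x => ¬ x.val < n / 2) with hR
  have cL : L.card = n / 2 := by
    rw [hL, Fin.card_filter_val_lt]
    omega
  have cR : R.card = (n + 1) / 2 := by
    have h1 : L.card + R.card = (univ : Finset (Fin n)).card :=
      card_filter_add_card_filter_not (fun x : Fin n => x.val < n / 2)
    rw [card_univ, Fintype.card_fin] at h1
    omega
  have e : mono k (col n) univ = L.powersetCard k ∪ R.powersetCard k := by
    ext K
    unfold mono
    rw [mem_filter, mem_union, mem_powersetCard, mem_powersetCard, mem_powersetCard]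
    constructor
    · rintro ⟨⟨-, hc⟩, hm⟩
      have hne : K.Nonempty := by
        rw [← card_pos]
        omega
      rcases (key n K hne).1 hm with h | h
      · exact Or.inl ⟨fun x hx => by rw [hL, mem_filter]; exact ⟨mem_univ _, h x hx⟩, hc⟩
      · exact Or.inr ⟨fun x hx => by rw [hR, mem_filter]; exact ⟨mem_univ _, h x hx⟩, hc⟩
    · rintro (⟨hs, hc⟩ | ⟨hs, hc⟩)
      · have hne : K.Nonempty := by
          rw [← card_pos]
          omega
        refine ⟨⟨subset_univ _, hc⟩, (key n K hne).2 (Or.inl fun x hx => ?_)⟩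
        have := hs hx
        rw [hL, mem_filter] at this
        exact this.2
      · have hne : K.Nonempty := by
          rw [← card_pos]
          omega
        refine ⟨⟨subset_univ _, hc⟩, (key n K hne).2 (Or.inr fun x hx => ?_)⟩
        have := hs hx
        rw [hR, mem_filter] at this
        exact this.2
  rw [e, card_union_of_disjoint, card_powersetCard, card_powersetCard, cL, cR]
  rw [disjoint_left]
  intro K h1 h2
  rw [mem_powersetCard] at h1 h2
  have hne : K.Nonempty := by
    rw [← card_pos]
    omega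
  obtain ⟨x, hx⟩ := hne
  have a := h1.1 hx
  have b := h2.1 hx
  rw [hL, mem_filter] at a
  rw [hR, mem_filter] at b
  exact b.2 a.2

end Pool.Agent.Q31.SG.LOWER
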