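import Pool.Agent.Q5.SG.Stm2

/-!
# Project SG, job LK: an auxiliary extension, Kummer case
-/

set_option autoImplicit false
set_option linter.unusedSectionVars false
set_option linter.deprecated false

namespace Pool.Agent.Q31.SG

open NumberField IsDedekindDomain Module Polynomial
open Pool.Agent.Q5.SG

theorem exists_y {K : Type} [Field K] [NumberField K] {𝔮 v : HeightOneSpectrum (𝓞 K)} (h : v ≠ 𝔮) :
    ∃ y : 𝓞 K, y ∈ 𝔮.asIdeal ∧ y ∉ 𝔮.asIdeal ^ 2 ∧ y ∉ v.asIdeal := by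
  obtain ⟨y₀, h1, h2⟩ := Ideal.exists_mem_pow_notMem_pow_succ 𝔮.asIdeal 𝔮.ne_bot 𝔮.isPrime.ne_top 1
  rw [pow_one] at h1
  have hm1 : v.asIdeal.IsMaximal := v.isMaximal
  have hm2 : 𝔮.asIdeal.IsMaximal := 𝔮.isMaximal
  have hne : 𝔮.asIdeal ≠ v.asIdeal := fun e => h (HeightOneSpectrum.ext e.symm)
  have hc : IsCoprime (𝔮.asIdeal ^ 2) v.asIdeal :=
    (Ideal.isCoprime_of_isMaximal hne).pow_left
  obtain ⟨a, ha, b, hb, hab⟩ := Ideal.isCoprime_iff_exists.1 hc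
  have ha' : a ∈ 𝔮.asIdeal := Ideal.pow_le_self two_ne_zero ha
  refine ⟨y₀ * b + a, Ideal.add_mem _ (Ideal.mul_mem_right _ _ h1) ha', ?_, ?_⟩
  · intro h3
    refine h2 ?_
    have h4 : y₀ = (y₀ * b + a) + (y₀ * a - a) := by
      have : b = 1 - a := by rw [← hab]; ring
      rw [this]; ring
    rw [h4]
    exact Ideal.add_mem _ h3 (Ideal.sub_mem _ (Ideal.mul_mem_left _ _ ha) ha)
  · intro h3
    refine hm1.ne_top ((Ideal.eq_top_iff_one _).2 ?_)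
    have h4 : (1 : 𝓞 K) = (y₀ * b + a) + (b - y₀ * b) := by rw [← hab]; ring
    rw [h4]
    exact Ideal.add_mem _ h3 (Ideal.sub_mem _ hb (Ideal.mul_mem_left _ _ hb))

theorem irr {K : Type} [Field K] [NumberField K] {𝔮 : HeightOneSpectrum (𝓞 K)} {y : 𝓞 K} {n : ℕ}
    (hn : 1 ≤ n) (h1 : y ∈ 𝔮.asIdeal) (h2 : y ∉ 𝔮.asIdeal ^ 2) :
    Irreducible (X ^ n - C (y : K) : K[X]) := by
  have hn0 : n ≠ 0 := by omega
  have hmon : (X ^ n - C y : (𝓞 K)[X]).Monic := monic_X_pow_sub_C y hn0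
  have hdeg : (X ^ n - C y : (𝓞 K)[X]).natDegree = n := natDegree_X_pow_sub_C
  have hE : (X ^ n - C y : (𝓞 K)[X]).IsEisensteinAt 𝔮.asIdeal := by
    refine ⟨?_, ?_, ?_⟩
    · rw [hmon.leadingCoeff]
      exact fun h => 𝔮.isPrime.ne_top ((Ideal.eq_top_iff_one _).2 h)
    · intro k hk
      rw [hdeg] at hk
      rw [coeff_sub, coeff_X_pow, if_neg hk.ne, zero_sub, coeff_C]
      split_ifs
      · exact neg_mem h1
      · rw [neg_zero]; exact zero_mem _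
    · rw [coeff_sub, coeff_X_pow, if_neg (Ne.symm hn0), zero_sub, coeff_C_zero]
      exact fun h => h2 (by rw [← neg_neg y]; exact neg_mem h)
  have hI : Irreducible (X ^ n - C y : (𝓞 K)[X]) :=
    hE.irreducible 𝔮.isPrime hmon.isPrimitive (by rw [hdeg]; omega)
  have h3 := (hmon.irreducible_iff_irreducible_map_fraction_map (K := K)).1 hI
  rw [Polynomial.map_sub, Polynomial.map_pow, map_X, map_C] at h3
  exact h3

section
variable {K L : Type} [Field K] [NumberField K] [Field L] [NumberField L] [Algebra K L]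

/-- a prime above `𝔮` contains `𝔮` to the power `n` -/
theorem map_le_pow {𝔮 : HeightOneSpectrum (𝓞 K)} {y : 𝓞 K} {n : ℕ} {ρ : 𝓞 L}
    (h1 : y ∈ 𝔮.asIdeal) (h2 : y ∉ 𝔮.asIdeal ^ 2) (hρ : ρ ^ n = algebraMap (𝓞 K) (𝓞 L) y)
    (𝔓 : HeightOneSpectrum (𝓞 L)) (h : 𝔓.under (𝓞 K) = 𝔮) :
    𝔮.asIdeal.map (algebraMap (𝓞 K) (𝓞 L)) ≤ 𝔓.asIdeal ^ n := by
  have hu : 𝔓.asIdeal.comap (algebraMap (𝓞 K) (𝓞 L)) = 𝔮.asIdeal := by rw [← h]; rfl
  obtain ⟨J, hJ⟩ : 𝔮.asIdeal ∣ Ideal.span {y} := by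
    rw [Ideal.dvd_iff_le, Ideal.span_singleton_le_iff_mem]; exact h1
  have hJ2 : ¬ J ≤ 𝔮.asIdeal := by
    intro h3
    refine h2 ?_
    rw [← Ideal.span_singleton_le_iff_mem, hJ, sq]
    exact Ideal.mul_mono_right h3
  have hρm : ρ ∈ 𝔓.asIdeal := by
    refine 𝔓.isPrime.mem_of_pow_mem n ?_
    rw [hρ, ← Ideal.mem_comap, hu]
    exact h1
  have h4 : 𝔮.asIdeal.map (algebraMap (𝓞 K) (𝓞 L)) * J.map (algebraMap (𝓞 K) (𝓞 L)) ≤
      𝔓.asIdeal ^ n := by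
    rw [← Ideal.map_mul, ← hJ, Ideal.map_span, Set.image_singleton, ← hρ,
      Ideal.span_singleton_le_iff_mem]
    exact Ideal.pow_mem_pow hρm n
  have h5 : ¬ J.map (algebraMap (𝓞 K) (𝓞 L)) ≤ 𝔓.asIdeal := by
    rw [Ideal.map_le_iff_le_comap, hu]
    exact hJ2
  rw [← Ideal.dvd_iff_le] at h4 ⊢
  rw [← Ideal.dvd_iff_le] at h5
  exact 𝔓.prime.pow_dvd_of_dvd_mul_right n h5 h4

theorem totRam {𝔮 : HeightOneSpectrum (𝓞 K)} {y : 𝓞 K} {n : ℕ} {ρ : 𝓞 L} (hn : 1 ≤ n)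
    (hf : finrank K L = n)
    (h1 : y ∈ 𝔮.asIdeal) (h2 : y ∉ 𝔮.asIdeal ^ 2) (hρ : ρ ^ n = algebraMap (𝓞 K) (𝓞 L) y) :
    TotRam 𝔮 L := by
  classical
  have hm : 𝔮.asIdeal.IsMaximal := 𝔮.isMaximal
  have hsum := Ideal.sum_ramification_inertia (𝓞 L) K L (p := 𝔮.asIdeal) 𝔮.ne_bot
  rw [hf] at hsum
  have hdat : ∀ P ∈ IsDedekindDomain.primesOverFinset 𝔮.asIdeal (𝓞 L),
      P.IsPrime ∧ P.LiesOver 𝔮.asIdeal := fun P hP =>
    (IsDedekindDomain.mem_primesOverFinset_iff 𝔮.ne_bot (𝓞 L)).1 hP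
  have hPne : ∀ P ∈ IsDedekindDomain.primesOverFinset 𝔮.asIdeal (𝓞 L), P ≠ ⊥ := by
    intro P hP
    obtain ⟨a, b⟩ := hdat P hP
    exact Ideal.ne_bot_of_liesOver_of_ne_bot 𝔮.ne_bot P
  have hund : ∀ (P : Ideal (𝓞 L)) (hP : P ∈ IsDedekindDomain.primesOverFinset 𝔮.asIdeal (𝓞 L)),
      (⟨P, (hdat P hP).1, hPne P hP⟩ : HeightOneSpectrum (𝓞 L)).under (𝓞 K) = 𝔮 := by
    intro P hP
    obtain ⟨a, b⟩ := hdat P hP
    exact HeightOneSpectrum.ext (b.over).symm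
  have hmem : ∀ 𝔓 : HeightOneSpectrum (𝓞 L), 𝔓.under (𝓞 K) = 𝔮 →
      𝔓.asIdeal ∈ IsDedekindDomain.primesOverFinset 𝔮.asIdeal (𝓞 L) := by
    intro 𝔓 h
    refine (IsDedekindDomain.mem_primesOverFinset_iff 𝔮.ne_bot (𝓞 L)).2 ⟨𝔓.isPrime, ⟨?_⟩⟩
    rw [← h]; rfl
  have hmapne : 𝔮.asIdeal.map (algebraMap (𝓞 K) (𝓞 L)) ≠ ⊥ := Ideal.map_ne_bot_of_ne_bot 𝔮.ne_bot
  have he : ∀ P ∈ IsDedekindDomain.primesOverFinset 𝔮.asIdeal (𝓞 L),
      n ≤ Ideal.ramificationIdx' 𝔮.asIdeal P := by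
    intro P hP
    have h3 := map_le_pow h1 h2 hρ ⟨P, (hdat P hP).1, hPne P hP⟩ (hund P hP)
    rw [Ideal.IsDedekindDomain.ramificationIdx'_eq_multiplicity hmapne (hdat P hP).1]
    refine FiniteMultiplicity.le_multiplicity_of_pow_dvd
      (FiniteMultiplicity.of_prime_left (Ideal.prime_of_isPrime (hPne P hP) (hdat P hP).1) hmapne) ?_
    rw [Ideal.dvd_iff_le]
    exact h3
  have hi : ∀ P ∈ IsDedekindDomain.primesOverFinset 𝔮.asIdeal (𝓞 L),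
      1 ≤ Ideal.inertiaDeg' 𝔮.asIdeal P := by
    intro P hP
    obtain ⟨a, b⟩ := hdat P hP
    exact Ideal.inertiaDeg'_pos 𝔮.asIdeal P
  have hone : ∀ P ∈ IsDedekindDomain.primesOverFinset 𝔮.asIdeal (𝓞 L),
      n ≤ Ideal.ramificationIdx' 𝔮.asIdeal P * Ideal.inertiaDeg' 𝔮.asIdeal P := fun P hP =>
    (he P hP).trans (Nat.le_mul_of_pos_right _ (hi P hP))
  -- there is a prime
  obtain ⟨P, hP⟩ : (IsDedekindDomain.primesOverFinset 𝔮.asIdeal (𝓞 L)).Nonempty := by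
    rw [Finset.nonempty_iff_ne_empty]
    intro h0
    rw [h0, Finset.sum_empty] at hsum
    omega
  have huniq : ∀ P' ∈ IsDedekindDomain.primesOverFinset 𝔮.asIdeal (𝓞 L), P' = P := by
    intro P' hP'
    by_contra hne
    have h3 : ∑ Q ∈ ({P, P'} : Finset (Ideal (𝓞 L))),
        Ideal.ramificationIdx' 𝔮.asIdeal Q * Ideal.inertiaDeg' 𝔮.asIdeal Q ≤ n := by
      rw [← hsum]
      refine Finset.sum_le_sum_of_subset ?_
      intro Q hQ
      rw [Finset.mem_insert, Finset.mem_singleton] at hQ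
      rcases hQ with rfl | rfl
      · exact hP
      · exact hP'
    rw [Finset.sum_pair (Ne.symm hne)] at h3
    have h4 := hone P hP
    have h5 := hone P' hP'
    omega
  have hfin : Ideal.inertiaDeg' 𝔮.asIdeal P = 1 := by
    have h3 : Ideal.ramificationIdx' 𝔮.asIdeal P * Ideal.inertiaDeg' 𝔮.asIdeal P ≤ n := by
      rw [← hsum]
      exact Finset.single_le_sum (f := fun Q => Ideal.ramificationIdx' 𝔮.asIdeal Q *
        Ideal.inertiaDeg' 𝔮.asIdeal Q) (fun _ _ => Nat.zero_le _) hP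
    have h4 := he P hP
    have h5 := hi P hP
    by_contra hne
    have h6 : 2 ≤ Ideal.inertiaDeg' 𝔮.asIdeal P := by omega
    have h7 : n * 2 ≤ Ideal.ramificationIdx' 𝔮.asIdeal P * Ideal.inertiaDeg' 𝔮.asIdeal P :=
      Nat.mul_le_mul h4 h6
    omega
  refine ⟨⟨P, (hdat P hP).1, hPne P hP⟩, hund P hP, ?_, ?_⟩
  · intro 𝔓' h
    exact HeightOneSpectrum.ext (huniq _ (hmem 𝔓' h))
  · intro x
    obtain ⟨a, b⟩ := hdat P hP
    rw [Ideal.inertiaDeg'_algebraMap] at hfin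
    have h3 : Function.Bijective (algebraMap (𝓞 K ⧸ 𝔮.asIdeal) (𝓞 L ⧸ P)) := by
      let : Field (𝓞 K ⧸ 𝔮.asIdeal) := Ideal.Quotient.field 𝔮.asIdeal
      exact Module.Free.bijective_algebraMap_of_finrank_eq_one hfin
    obtain ⟨z, hz⟩ := h3.2 (Ideal.Quotient.mk P x)
    obtain ⟨y, rfl⟩ := Ideal.Quotient.mk_surjective z
    refine ⟨y, ?_⟩
    show x - algebraMap (𝓞 K) (𝓞 L) y ∈ P
    rw [← Ideal.Quotient.eq, ← hz]
    rfl

/-- a prime above `v` is not ramified -/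
theorem unram {v : HeightOneSpectrum (𝓞 K)} {y : 𝓞 K} {n : ℕ} {ρ : 𝓞 L} (hn : 1 ≤ n)
    (hf : finrank K L = n) (hy : y ∉ v.asIdeal) (hnv : (n : 𝓞 K) ∉ v.asIdeal)
    (hirr : Irreducible (X ^ n - C (y : K) : K[X]))
    (hgen : Algebra.adjoin K {(ρ : L)} = ⊤) (hρ : ρ ^ n = algebraMap (𝓞 K) (𝓞 L) y)
    (w : HeightOneSpectrum (𝓞 L)) (hw : w.under (𝓞 K) = v) :
    ¬ v.asIdeal.map (algebraMap (𝓞 K) (𝓞 L)) ≤ w.asIdeal ^ 2 := by
  intro hle
  have hm : v.asIdeal.IsMaximal := v.isMaximal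
  have hu : w.asIdeal.comap (algebraMap (𝓞 K) (𝓞 L)) = v.asIdeal := by rw [← hw]; rfl
  have h1 : w.asIdeal ^ (2 - 1) ∣ differentIdeal (𝓞 K) (𝓞 L) :=
    pow_sub_one_dvd_differentIdeal_aux (𝓞 K) K L w.asIdeal two_ne_zero v.ne_bot
      (Ideal.dvd_iff_le.2 hle)
  rw [show 2 - 1 = 1 from rfl, pow_one, Ideal.dvd_iff_le] at h1
  have h2 := h1 (aeval_derivative_mem_differentIdeal (𝓞 K) K L ρ hgen)
  have hmin : minpoly (𝓞 K) ρ = X ^ n - C y := by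
    have h3 : minpoly K (algebraMap (𝓞 L) L ρ) = (minpoly (𝓞 K) ρ).map (algebraMap (𝓞 K) K) :=
      minpoly.isIntegrallyClosed_eq_field_fractions K L (Algebra.IsIntegral.isIntegral ρ)
    have h4 : X ^ n - C (y : K) = minpoly K (algebraMap (𝓞 L) L ρ) := by
      refine minpoly.eq_of_irreducible_of_monic hirr ?_ (monic_X_pow_sub_C _ (by omega))
      rw [map_sub, map_pow, aeval_X, aeval_C, ← map_pow, hρ, sub_eq_zero]
      rfl
    apply Polynomial.map_injective (algebraMap (𝓞 K) K) (FaithfulSMul.algebraMap_injective _ _)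
    rw [← h3, ← h4, Polynomial.map_sub, Polynomial.map_pow, map_X, map_C]
  rw [hmin, derivative_sub, derivative_C, sub_zero, derivative_X_pow, map_mul, aeval_C, map_pow,
    aeval_X, map_natCast] at h2
  rcases w.isPrime.mem_or_mem h2 with h3 | h3
  · refine hnv ?_
    rw [← hu, Ideal.mem_comap, map_natCast]
    exact h3
  · have h4 := w.isPrime.mem_of_pow_mem _ h3
    refine hy ?_
    rw [← hu, Ideal.mem_comap, ← hρ]
    exact Ideal.pow_mem_of_mem _ h4 n hn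

end

/-- **The job LK.** -/
theorem lk : S_LK := by
  intro K _ _ 𝔮 v hv hq hqv
  obtain ⟨n, hn⟩ : ∃ n, n = Ideal.absNorm 𝔮.asIdeal - 1 := ⟨_, rfl⟩
  have hn1 : 1 ≤ n := by have := hq.two_le; omega
  obtain ⟨y, h1, h2, h3⟩ := exists_y hv
  have hirr := irr hn1 h1 h2
  have : Fact (Irreducible (X ^ n - C (y : K) : K[X])) := ⟨hirr⟩
  have hmon : (X ^ n - C (y : K) : K[X]).Monic := monic_X_pow_sub_C _ (by omega)
  have hdeg : (X ^ n - C (y : K) : K[X]).natDegree = n := natDegree_X_pow_sub_C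
  have : FiniteDimensional K (AdjoinRoot (X ^ n - C (y : K) : K[X])) :=
    (AdjoinRoot.powerBasis hmon.ne_zero).finite
  have : NumberField (AdjoinRoot (X ^ n - C (y : K) : K[X])) :=
    NumberField.of_module_finite K _
  have hfr : finrank K (AdjoinRoot (X ^ n - C (y : K) : K[X])) = n := by
    rw [(AdjoinRoot.powerBasis hmon.ne_zero).finrank, AdjoinRoot.powerBasis_dim, hdeg]
  have hrt : (AdjoinRoot.root (X ^ n - C (y : K) : K[X])) ^ n =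
      algebraMap K (AdjoinRoot (X ^ n - C (y : K) : K[X])) (y : K) := by
    have := AdjoinRoot.eval₂_root (X ^ n - C (y : K) : K[X])
    rw [eval₂_sub, eval₂_X_pow, eval₂_C, sub_eq_zero] at this
    exact this
  have hint : IsIntegral ℤ (AdjoinRoot.root (X ^ n - C (y : K) : K[X])) := by
    refine IsIntegral.of_pow (n := n) hn1 ?_
    rw [hrt]
    exact (y.isIntegral_coe).map (algebraMap K (AdjoinRoot (X ^ n - C (y : K) : K[X]))).toIntAlgHom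
  obtain ⟨ρ, hρ⟩ : ∃ ρ : 𝓞 (AdjoinRoot (X ^ n - C (y : K) : K[X])),
      (ρ : AdjoinRoot (X ^ n - C (y : K) : K[X])) = AdjoinRoot.root _ := ⟨⟨_, hint⟩, rfl⟩
  have hρn : ρ ^ n = algebraMap (𝓞 K) (𝓞 (AdjoinRoot (X ^ n - C (y : K) : K[X]))) y := by
    apply RingOfIntegers.ext
    have h4 : ((ρ ^ n : 𝓞 (AdjoinRoot (X ^ n - C (y : K) : K[X]))) :
        AdjoinRoot (X ^ n - C (y : K) : K[X])) = (AdjoinRoot.root (X ^ n - C (y : K) : K[X])) ^ n := by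
      rw [← hρ]
      exact map_pow (algebraMap (𝓞 (AdjoinRoot (X ^ n - C (y : K) : K[X])))
        (AdjoinRoot (X ^ n - C (y : K) : K[X]))) ρ n
    rw [h4, hrt]
    rfl
  have hgen : Algebra.adjoin K {(ρ : AdjoinRoot (X ^ n - C (y : K) : K[X]))} = ⊤ := by
    rw [hρ]
    exact AdjoinRoot.adjoinRoot_eq_top
  refine ⟨AdjoinRoot (X ^ n - C (y : K) : K[X]), inferInstance, inferInstance, inferInstance,
    hfr.trans hn, totRam hn1 hfr h1 h2 hρn, ?_⟩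
  have hm : v.asIdeal.IsMaximal := v.isMaximal
  obtain ⟨P, hP1, hP2⟩ := Ideal.exists_maximal_ideal_liesOver_of_isIntegral v.asIdeal
    (S := 𝓞 (AdjoinRoot (X ^ n - C (y : K) : K[X])))
  have hPne : P ≠ ⊥ := Ideal.ne_bot_of_liesOver_of_ne_bot v.ne_bot P
  refine ⟨⟨P, hP1.isPrime, hPne⟩, HeightOneSpectrum.ext (hP2.over).symm, ?_⟩
  refine unram hn1 hfr h3 ?_ hirr hgen hρn _ (HeightOneSpectrum.ext (hP2.over).symm)
  intro h4
  refine hm.ne_top ((Ideal.eq_top_iff_one _).2 ?_)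
  have h5 : (1 : 𝓞 K) = ((Ideal.absNorm 𝔮.asIdeal : ℕ) : 𝓞 K) - (n : 𝓞 K) := by
    have : Ideal.absNorm 𝔮.asIdeal = n + 1 := by omega
    rw [this]
    push_cast
    ring
  rw [h5]
  exact Ideal.sub_mem _ hqv h4

end Pool.Agent.Q31.SG
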